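import Pool.Agent.MWC.Stmts
import Pool.Agent.MVO.Split

/-!
# Block MWC, row SPG: exchanges in `GT k T`
-/

set_option autoImplicit false

namespace Pool.Agent.MWC.H98

open Pool.Agent.Helper14_MV Pool.Agent.Helper2_MV Pool.Agent.MVO Pool.Agent.MWL

/-- number of the letters `≥ 2` -/
def sn (w : List ℕ) : ℕ := w.countP (fun c => decide (2 ≤ c))

theorem sn_append (u v : List ℕ) : sn (u ++ v) = sn u + sn v := List.countP_append

theorem sn_zero {w : List ℕ} (h : ∀ c ∈ w, c = 0 ∨ c = 1) : sn w = 0 := by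
  unfold sn
  rw [List.countP_eq_zero]
  intro c hc
  rw [decide_eq_true_iff]
  rcases h c hc with h | h <;> omega

/-- number of the letters `c` behind exactly `j - s` letters `≥ 2` -/
def lv (c : ℕ) : ℕ → List ℕ → ℕ → ℕ
  | _, [], _ => 0
  | s, x :: w, j => (if x = c ∧ s = j then 1 else 0) + lv c (if 2 ≤ x then s + 1 else s) w j

theorem lv_nil (c s j : ℕ) : lv c s [] j = 0 := rfl

theorem lv_cons (c s x j : ℕ) (w : List ℕ) : lv c s (x :: w) j =
    (if x = c ∧ s = j then 1 else 0) + lv c (if 2 ≤ x then s + 1 else s) w j := rfl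

theorem sn_cons (x : ℕ) (w : List ℕ) : sn (x :: w) = (if 2 ≤ x then 1 else 0) + sn w := by
  unfold sn
  rw [List.countP_cons]
  by_cases h : 2 ≤ x
  · simp [h, Nat.add_comm]
  · simp [h]

theorem lv_append (c j : ℕ) (v : List ℕ) : ∀ (u : List ℕ) (s : ℕ),
    lv c s (u ++ v) j = lv c s u j + lv c (s + sn u) v j := by
  intro u
  induction u with
  | nil =>
    intro s
    simp [lv_nil, sn]
  | cons x u ih =>
    intro s
    rw [List.cons_append, lv_cons, lv_cons, ih, sn_cons]
    by_cases h : 2 ≤ x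
    · rw [if_pos h, if_pos h, show s + (1 + sn u) = s + 1 + sn u by omega]
      omega
    · rw [if_neg h, if_neg h, show s + (0 + sn u) = s + sn u by omega]
      omega

theorem lv_flat {w : List ℕ} (c j : ℕ) (h : ∀ c ∈ w, c = 0 ∨ c = 1) :
    ∀ s, lv c s w j = if s = j then w.count c else 0 := by
  induction w with
  | nil =>
    intro s
    simp [lv_nil]
  | cons x w ih =>
    intro s
    have hx : ¬ 2 ≤ x := by
      rcases h x List.mem_cons_self with h | h <;> omega
    rw [lv_cons, if_neg hx, ih (fun c hc => h c (List.mem_cons_of_mem _ hc))]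
    by_cases h1 : s = j
    · rw [if_pos h1, if_pos h1, List.count_cons]
      by_cases h2 : x = c
      · rw [if_pos ⟨h2, h1⟩]
        simp [h2, Nat.add_comm]
      · rw [if_neg (fun hh => h2 hh.1)]
        simp [h2]
    · rw [if_neg h1, if_neg h1, if_neg (fun hh => h1 hh.2)]

theorem lv_gt (c j : ℕ) : ∀ (w : List ℕ) (s : ℕ), s + sn w < j → lv c s w j = 0 := by
  intro w
  induction w with
  | nil => intro s _; rfl
  | cons x w ih =>
    intro s hs
    rw [sn_cons] at hs
    rw [lv_cons, if_neg (by omega)]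
    by_cases h : 2 ≤ x
    · rw [if_pos h] at hs ⊢
      rw [ih _ (by omega)]
    · rw [if_neg h] at hs ⊢
      rw [ih _ (by omega)]

theorem lv_not_mem (c j : ℕ) : ∀ (w : List ℕ) (s : ℕ), c ∉ w → lv c s w j = 0 := by
  intro w
  induction w with
  | nil => intro s _; rfl
  | cons x w ih =>
    intro s hs
    rw [List.mem_cons, not_or] at hs
    rw [lv_cons, if_neg (fun h => hs.1 h.1.symm), ih _ hs.2]

theorem sn_asm {k : ℕ} {B : ℕ → List ℕ} (hB : ∀ j ≤ k, ∀ c ∈ B j, c = 0 ∨ c = 1) :
    sn (asm k B) = k := by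
  induction k with
  | zero => exact sn_zero (hB 0 le_rfl)
  | succ k ih =>
    simp only [asm]
    rw [sn_append, ih (fun j hj => hB j (by omega)), sn_cons, if_pos (by omega),
      sn_zero (hB (k + 1) le_rfl)]

theorem lv_asm {k : ℕ} {B : ℕ → List ℕ} (hB : ∀ j ≤ k, ∀ c ∈ B j, c = 0 ∨ c = 1) {c : ℕ}
    (hc : c = 0 ∨ c = 1) (j : ℕ) : lv c 0 (asm k B) j = if j ≤ k then (B j).count c else 0 := by
  induction k with
  | zero =>
    show lv c 0 (B 0) j = _
    rw [lv_flat c j (hB 0 le_rfl)]
    by_cases h : j = 0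
    · subst h
      simp
    · rw [if_neg (fun hh => h hh.symm), if_neg (by omega)]
  | succ k ih =>
    simp only [asm]
    have h2 : ¬ (k + 2 = c ∧ 0 + sn (asm k B) = j) := by
      rcases hc with rfl | rfl <;> omega
    have h3 : 2 ≤ k + 2 := by omega
    rw [lv_append, ih (fun j hj => hB j (by omega)), lv_cons, if_neg h2, if_pos h3,
      lv_flat c j (hB (k + 1) le_rfl), sn_asm (fun j hj => hB j (by omega))]
    by_cases h : j ≤ k
    · have h4 : ¬ (0 + k + 1 = j) := by omega
      have h5 : j ≤ k + 1 := by omega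
      rw [if_pos h, if_neg h4, if_pos h5]
      omega
    · rw [if_neg h]
      by_cases h1 : j = k + 1
      · subst h1
        simp
      · have h4 : ¬ (0 + k + 1 = j) := by omega
        have h5 : ¬ (j ≤ k + 1) := by omega
        rw [if_neg h4, if_neg h5]

theorem sn_flatMap_zero {g : ℕ → List ℕ} (h0 : ∀ c ∈ g 0, c = 0 ∨ c = 1)
    (h1 : ∀ c ∈ g 1, c = 0 ∨ c = 1) {l : List ℕ} (hl : ∀ c ∈ l, c = 0 ∨ c = 1) :
    ∀ c ∈ l.flatMap g, c = 0 ∨ c = 1 := by
  intro c hc
  obtain ⟨x, hx, hcx⟩ := List.mem_flatMap.1 hc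
  rcases hl x hx with rfl | rfl
  · exact h0 c hcx
  · exact h1 c hcx

theorem sn_image {g : ℕ → List ℕ} (h0 : ∀ c ∈ g 0, c = 0 ∨ c = 1)
    (h1 : ∀ c ∈ g 1, c = 0 ∨ c = 1) {k1 : ℕ} {B1 : ℕ → List ℕ}
    (hB1 : ∀ j ≤ k1, ∀ c ∈ B1 j, c = 0 ∨ c = 1) :
    sn ((asm k1 B1).flatMap g) = sn ((seps k1).flatMap g) := by
  induction k1 with
  | zero =>
    show sn ((B1 0).flatMap g) = sn (([] : List ℕ).flatMap g)
    rw [sn_zero (sn_flatMap_zero h0 h1 (hB1 0 le_rfl))]
    rfl
  | succ k1 ih =>
    simp only [asm]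
    rw [seps_succ, List.flatMap_append, List.flatMap_append, sn_append, sn_append,
      ih (fun j hj => hB1 j (by omega)), List.flatMap_cons, List.flatMap_cons, sn_append,
      sn_append, sn_zero (sn_flatMap_zero h0 h1 (hB1 (k1 + 1) le_rfl))]
    rfl

/-- the contribution of the images of the simple letters -/
def rest (c : ℕ) (g : ℕ → List ℕ) (s j : ℕ) : ℕ → ℕ
  | 0 => 0
  | k1 + 1 => rest c g s j k1 + lv c (s + sn ((seps k1).flatMap g)) (g (k1 + 2)) j

theorem lv_image {g : ℕ → List ℕ} (h0 : ∀ c ∈ g 0, c = 0 ∨ c = 1)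
    (h1 : ∀ c ∈ g 1, c = 0 ∨ c = 1) {k1 : ℕ} {B1 : ℕ → List ℕ}
    (hB1 : ∀ j ≤ k1, ∀ c ∈ B1 j, c = 0 ∨ c = 1) (c s j : ℕ) :
    lv c s ((asm k1 B1).flatMap g) j =
      (∑ i ∈ Finset.range (k1 + 1), if s + sn ((seps i).flatMap g) = j then
        ((B1 i).flatMap g).count c else 0) + rest c g s j k1 := by
  induction k1 with
  | zero =>
    show lv c s ((B1 0).flatMap g) j = _
    rw [lv_flat c j (sn_flatMap_zero h0 h1 (hB1 0 le_rfl)), Finset.sum_range_one]
    show _ = (if s + sn (([] : List ℕ).flatMap g) = j then _ else 0) + 0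
    rfl
  | succ k1 ih =>
    have e1 : (asm (k1 + 1) B1).flatMap g =
        (asm k1 B1).flatMap g ++ (g (k1 + 2) ++ (B1 (k1 + 1)).flatMap g) := by
      simp only [asm]
      rw [List.flatMap_append, List.flatMap_cons]
    rw [e1, lv_append, ih (fun j hj => hB1 j (by omega)), lv_append,
      sn_image h0 h1 (fun j hj => hB1 j (by omega)),
      lv_flat c j (sn_flatMap_zero h0 h1 (hB1 (k1 + 1) le_rfl)),
      Finset.sum_range_succ _ (k1 + 1)]
    have e2 : sn ((seps (k1 + 1)).flatMap g) = sn ((seps k1).flatMap g) + sn (g (k1 + 2)) := by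
      rw [seps_succ, List.flatMap_append, sn_append, List.flatMap_cons, List.flatMap_nil,
        List.append_nil]
    rw [e2]
    show _ = _ + (rest c g s j k1 + lv c (s + sn ((seps k1).flatMap g)) (g (k1 + 2)) j)
    rw [← Nat.add_assoc s]
    ring

theorem mem_bl {p q : ℕ} {e : Bool} {c : ℕ} (h : c ∈ bl p q e) : c = 0 ∨ c = 1 := by
  unfold bl at h
  cases e
  · simp only [Bool.false_eq_true, ↓reduceIte, List.mem_append, List.mem_replicate] at h
    tauto
  · simp only [↓reduceIte, List.mem_append, List.mem_replicate] at h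
    tauto

theorem count_rep (g : ℕ → List ℕ) (x c : ℕ) : ∀ p : ℕ,
    ((List.replicate p x).flatMap g).count c = p * (g x).count c := by
  intro p
  induction p with
  | zero => simp
  | succ p ih =>
    rw [List.replicate_succ, List.flatMap_cons, List.count_append, ih]
    ring

theorem count_bl_image (g : ℕ → List ℕ) (p q : ℕ) (e : Bool) (c : ℕ) :
    ((bl p q e).flatMap g).count c = p * (g 0).count c + q * (g 1).count c := by
  unfold bl
  cases e
  · simp only [Bool.false_eq_true, ↓reduceIte]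
    rw [List.flatMap_append, List.count_append, count_rep, count_rep]
  · simp only [↓reduceIte]
    rw [List.flatMap_append, List.count_append, count_rep, count_rep]
    ring

theorem ns01 {k c : ℕ} (h : c = 0 ∨ c = 1) : NS k c := by
  unfold NS
  omega

theorem count_image {k1 : ℕ} (g : ℕ → List ℕ) (a b : ℕ → ℕ) (e : ℕ → Bool) (c : ℕ) :
    ((w2 k1 a b e).flatMap g).count c = deg k1 a * (g 0).count c + deg k1 b * (g 1).count c +
      ((seps k1).flatMap g).count c := by
  unfold w2 deg
  induction k1 with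
  | zero =>
    show ((bl (a 0) (b 0) (e 0)).flatMap g).count c = _
    rw [count_bl_image, Finset.sum_range_one, Finset.sum_range_one]
    simp [seps]
  | succ k1 ih =>
    have e1 : (asm (k1 + 1) (fun j => bl (a j) (b j) (e j))).flatMap g =
        (asm k1 (fun j => bl (a j) (b j) (e j))).flatMap g ++ (g (k1 + 2) ++
          (bl (a (k1 + 1)) (b (k1 + 1)) (e (k1 + 1))).flatMap g) := by
      simp only [asm]
      rw [List.flatMap_append, List.flatMap_cons]
    rw [e1, List.count_append, ih, List.count_append, count_bl_image,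
      Finset.sum_range_succ _ (k1 + 1), Finset.sum_range_succ _ (k1 + 1), seps_succ,
      List.flatMap_append, List.count_append, List.flatMap_cons, List.flatMap_nil,
      List.append_nil]
    ring

theorem getLast_rep {g : ℕ → List ℕ} {x p : ℕ} (hp : 1 ≤ p) (hx : g x ≠ []) (A : List ℕ) :
    (A ++ (List.replicate p x).flatMap g).getLast? = (g x).getLast? := by
  obtain ⟨p, rfl⟩ : ∃ r, p = r + 1 := ⟨p - 1, by omega⟩
  rw [List.replicate_succ', List.flatMap_append, ← List.append_assoc, List.flatMap_cons,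
    List.flatMap_nil, List.append_nil, List.getLast?_append_of_ne_nil _ hx]

/-- the letters 0 and 1 -/
def F01 (w : List ℕ) : List ℕ := w.filter (fun c => decide (c = 0 ∨ c = 1))

theorem F01_append (u v : List ℕ) : F01 (u ++ v) = F01 u ++ F01 v := List.filter_append ..

theorem F01_self {w : List ℕ} (h : ∀ c ∈ w, c = 0 ∨ c = 1) : F01 w = w := by
  unfold F01
  rw [List.filter_eq_self]
  intro c hc
  rw [decide_eq_true_iff]
  exact h c hc

/-- the predicate on lists -/
def QL (k : ℕ) (T : (ℕ → ℕ) → (ℕ → ℕ) → Prop) (w : List ℕ) : Prop :=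
  ∃ B : ℕ → List ℕ, w = asm k B ∧ (∀ j ≤ k, ∀ c ∈ B j, c = 0 ∨ c = 1) ∧
    T (fun j => (B j).count 0) (fun j => (B j).count 1) ∧ (F01 w).getLast? = some 1

theorem count_le_of_mem {k : ℕ} {B : ℕ → List ℕ} (hB : ∀ j ≤ k, ∀ c ∈ B j, c = 0 ∨ c = 1) {c : ℕ}
    (hc : ¬ (c = 0 ∨ c = 1)) : (asm k B).count c ≤ 1 := by
  by_cases h2 : 2 ≤ c ∧ c ≤ k + 1
  · exact (count_sep (fun j hj c hc => ns01 (hB j hj c hc)) h2.1 h2.2).le
  · rw [List.count_eq_zero_of_not_mem]
    · exact Nat.zero_le _
    · intro hm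
      rcases mem_asm.1 hm with hm | ⟨j, hj, hm⟩
      · exact h2 hm
      · exact hc (hB j hj c hm)

theorem flp_ne {e : ℕ → Bool} {i j : ℕ} (h : j ≠ i) : flp e i j = e j := by
  unfold flp
  rw [if_neg h]

theorem flp_self (e : ℕ → Bool) (i : ℕ) : flp e i i = !(e i) := by
  unfold flp
  rw [if_pos rfl]

theorem sn_pre {g : ℕ → List ℕ} (h0 : ∀ c ∈ g 0, c = 0 ∨ c = 1)
    (h1 : ∀ c ∈ g 1, c = 0 ∨ c = 1) {i : ℕ} {B1 : ℕ → List ℕ}
    (hB1 : ∀ j, ∀ c ∈ B1 j, c = 0 ∨ c = 1) :
    sn ((pre B1 i).flatMap g) = sn ((seps i).flatMap g) := by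
  cases i with
  | zero => rfl
  | succ i =>
    show sn ((asm i B1 ++ [i + 2]).flatMap g) = _
    rw [seps_succ, List.flatMap_append, List.flatMap_append, sn_append, sn_append,
      sn_image h0 h1 (fun j _ => hB1 j)]

/-- one direction of the exchange, for lists -/
theorem spg_list {k l : ℕ} {T : (ℕ → ℕ) → (ℕ → ℕ) → Prop} (hT : TExt k T) (hL : TLast k l T)
    {k1 : ℕ} {a b : ℕ → ℕ} {i : ℕ} (ha : 2 ≤ deg k1 a) (hb : 2 ≤ deg k1 b) (hi : i ≤ k1)
    (hno : ∀ f c d, BMap k1 k f → f i = l → T c d →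
        ¬ ((∀ j ≤ k, psh k1 f a j ≤ c j) ∧ ∀ j ≤ k, psh k1 f b j ≤ d j) ∧
        ¬ ((∀ j ≤ k, psh k1 f b j ≤ c j) ∧ ∀ j ≤ k, psh k1 f a j ≤ d j)) (e : ℕ → Bool)
    (g : ℕ → List ℕ) (M Q : List ℕ) (h : QL k T (M ++ (w2 k1 a b e).flatMap g ++ Q)) :
    QL k T (M ++ (w2 k1 a b (flp e i)).flatMap g ++ Q) := by
  obtain ⟨B, hWB, hB, hTB, hl⟩ := h
  -- the letters of the images of 0 and 1
  have hcnt : ∀ c, (asm k B).count c = M.count c + (deg k1 a * (g 0).count c +
      deg k1 b * (g 1).count c + ((seps k1).flatMap g).count c) + Q.count c := by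
    intro c
    rw [← hWB, List.count_append, List.count_append, count_image]
  have hz : ∀ c, ¬ (c = 0 ∨ c = 1) → (g 0).count c = 0 ∧ (g 1).count c = 0 := by
    intro c hc
    have h1 := hcnt c
    have h2 := count_le_of_mem hB hc
    constructor
    · by_contra h3
      have h4 : 2 * 1 ≤ deg k1 a * (g 0).count c := Nat.mul_le_mul ha (Nat.pos_of_ne_zero h3)
      omega
    · by_contra h3
      have h4 : 2 * 1 ≤ deg k1 b * (g 1).count c := Nat.mul_le_mul hb (Nat.pos_of_ne_zero h3)
      omega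
  have g0 : ∀ c ∈ g 0, c = 0 ∨ c = 1 := by
    intro c hc
    by_contra h3
    exact List.count_eq_zero.1 (hz c h3).1 hc
  have g1 : ∀ c ∈ g 1, c = 0 ∨ c = 1 := by
    intro c hc
    by_contra h3
    exact List.count_eq_zero.1 (hz c h3).2 hc
  -- the map of the blocks
  obtain ⟨f, hf⟩ : ∃ f : ℕ → ℕ, f = fun j => sn M + sn ((seps j).flatMap g) := ⟨_, rfl⟩
  have hfj : ∀ j, f j = sn M + sn ((seps j).flatMap g) := fun j => by rw [hf]
  have hstep : ∀ j, f j ≤ f (j + 1) := by
    intro j
    rw [hfj, hfj, seps_succ, List.flatMap_append, sn_append]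
    omega
  have hmono : Monotone f := monotone_nat_of_le_succ hstep
  have hBe : ∀ (e' : ℕ → Bool) (j : ℕ), ∀ c ∈ bl (a j) (b j) (e' j), c = 0 ∨ c = 1 :=
    fun e' j c hc => mem_bl hc
  have hsnW : ∀ e' : ℕ → Bool, sn (M ++ (w2 k1 a b e').flatMap g ++ Q) = f k1 + sn Q := by
    intro e'
    rw [sn_append, sn_append, hfj]
    unfold w2
    rw [sn_image g0 g1 (fun j _ => hBe e' j)]
  have hk : f k1 + sn Q = k := by
    rw [← hsnW e, hWB, sn_asm hB]
  have hf1 : BMap k1 k f := ⟨fun i j hij _ => hmono hij, fun i hi => by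
    have := hmono hi
    omega⟩
  -- the types of the words
  have hty : ∀ (e' : ℕ → Bool) (c j : ℕ), lv c 0 (M ++ (w2 k1 a b e').flatMap g ++ Q) j =
      lv c 0 M j + ((∑ i' ∈ Finset.range (k1 + 1), if f i' = j then
        (a i' * (g 0).count c + b i' * (g 1).count c) else 0) + rest c g (sn M) j k1) +
          lv c (f k1) Q j := by
    intro e' c j
    rw [lv_append, lv_append, sn_append, Nat.zero_add, Nat.zero_add]
    unfold w2
    rw [lv_image g0 g1 (fun j _ => hBe e' j), sn_image g0 g1 (fun j _ => hBe e' j), hfj k1]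
    simp only [count_bl_image, hfj]
  have hBc : ∀ c, (c = 0 ∨ c = 1) → ∀ j ≤ k, (B j).count c =
      lv c 0 (M ++ (w2 k1 a b e).flatMap g ++ Q) j := by
    intro c hc j hj
    rw [hWB, lv_asm hB hc, if_pos hj]
  have hlow0 : ∀ c, (c = 0 ∨ c = 1) → c ∈ g 0 → ∀ j ≤ k, psh k1 f a j ≤ (B j).count c := by
    intro c hc hcg j hj
    rw [hBc c hc j hj, hty]
    have h1 : psh k1 f a j ≤ ∑ i' ∈ Finset.range (k1 + 1), if f i' = j then
        (a i' * (g 0).count c + b i' * (g 1).count c) else 0 := by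
      unfold psh
      refine Finset.sum_le_sum fun i' _ => ?_
      by_cases h2 : f i' = j
      · rw [if_pos h2, if_pos h2]
        have h3 : 1 ≤ (g 0).count c := List.count_pos_iff.2 hcg
        have h4 : a i' * 1 ≤ a i' * (g 0).count c := Nat.mul_le_mul le_rfl h3
        omega
      · rw [if_neg h2, if_neg h2]
    omega
  have hlow1 : ∀ c, (c = 0 ∨ c = 1) → c ∈ g 1 → ∀ j ≤ k, psh k1 f b j ≤ (B j).count c := by
    intro c hc hcg j hj
    rw [hBc c hc j hj, hty]
    have h1 : psh k1 f b j ≤ ∑ i' ∈ Finset.range (k1 + 1), if f i' = j then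
        (a i' * (g 0).count c + b i' * (g 1).count c) else 0 := by
      unfold psh
      refine Finset.sum_le_sum fun i' _ => ?_
      by_cases h2 : f i' = j
      · rw [if_pos h2, if_pos h2]
        have h3 : 1 ≤ (g 1).count c := List.count_pos_iff.2 hcg
        have h4 : b i' * 1 ≤ b i' * (g 1).count c := Nat.mul_le_mul le_rfl h3
        omega
      · rw [if_neg h2, if_neg h2]
    omega
  -- the other word has blocks with the same types
  have hcnt' : ∀ c, (M ++ (w2 k1 a b (flp e i)).flatMap g ++ Q).count c = (asm k B).count c := by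
    intro c
    rw [hcnt, List.count_append, List.count_append, count_image]
  have hmem' : ∀ c ∈ M ++ (w2 k1 a b (flp e i)).flatMap g ++ Q,
      (2 ≤ c ∧ c ≤ k + 1) ∨ (c = 0 ∨ c = 1) := by
    intro c hc
    have h1 : c ∈ asm k B := by
      rw [← List.count_pos_iff, ← hcnt', List.count_pos_iff]
      exact hc
    rcases mem_asm.1 h1 with h2 | ⟨j, hj, h2⟩
    · exact Or.inl h2
    · exact Or.inr (hB j hj c h2)
  have hfil : ∀ e' : ℕ → Bool,
      (M ++ (w2 k1 a b e').flatMap g ++ Q).filter (fun c => decide (2 ≤ c ∧ c ≤ k + 1)) =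
      M.filter (fun c => decide (2 ≤ c ∧ c ≤ k + 1)) ++
        ((seps k1).flatMap g).filter (fun c => decide (2 ≤ c ∧ c ≤ k + 1)) ++
          Q.filter (fun c => decide (2 ≤ c ∧ c ≤ k + 1)) := by
    intro e'
    rw [List.filter_append, List.filter_append]
    congr 2
    unfold w2
    have hn : ∀ l : List ℕ, (∀ c ∈ l, c = 0 ∨ c = 1) →
        l.filter (fun c => decide (2 ≤ c ∧ c ≤ k + 1)) = [] := by
      intro l hl
      rw [List.filter_eq_nil_iff]
      intro c hc
      rw [decide_eq_true_iff]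
      rcases hl c hc with h | h <;> omega
    clear hcnt hcnt' hmem' hlow0 hlow1 hBc hty hf1 hk hsnW hi hno ha hb hWB hl
    induction k1 with
    | zero =>
      show ((bl (a 0) (b 0) (e' 0)).flatMap g).filter _ = (([] : List ℕ).flatMap g).filter _
      rw [hn _ (sn_flatMap_zero g0 g1 (hBe e' 0))]
      rfl
    | succ k1 ih =>
      have e1 : (asm (k1 + 1) (fun j => bl (a j) (b j) (e' j))).flatMap g =
          (asm k1 (fun j => bl (a j) (b j) (e' j))).flatMap g ++ (g (k1 + 2) ++
            (bl (a (k1 + 1)) (b (k1 + 1)) (e' (k1 + 1))).flatMap g) := by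
        simp only [asm]
        rw [List.flatMap_append, List.flatMap_cons]
      rw [e1, List.filter_append, ih, List.filter_append,
        hn _ (sn_flatMap_zero g0 g1 (hBe e' (k1 + 1))), seps_succ, List.flatMap_append,
        List.filter_append, List.flatMap_cons, List.flatMap_nil, List.append_nil, List.append_nil]
  have hdec : ∃ B' : ℕ → List ℕ, (∀ j, ∀ c ∈ B' j, NS k c) ∧
      M ++ (w2 k1 a b (flp e i)).flatMap g ++ Q = asm k B' := by
    apply dec
    rw [hfil, ← hfil e, hWB]
    exact filter_sep (fun j hj c hc => ns01 (hB j hj c hc))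
  obtain ⟨B', hB'ns, hW'⟩ := hdec
  have hB' : ∀ j ≤ k, ∀ c ∈ B' j, c = 0 ∨ c = 1 := by
    intro j hj c hc
    rcases hmem' c (by rw [hW']; exact mem_asm.2 (Or.inr ⟨j, hj, hc⟩)) with h1 | h1
    · exact absurd h1 (hB'ns j c hc)
    · exact h1
  have hsame : ∀ c, (c = 0 ∨ c = 1) → ∀ j ≤ k, (B j).count c = (B' j).count c := by
    intro c hc j hj
    have h1 := lv_asm hB' hc j
    rw [if_pos hj, ← hW', hty] at h1
    rw [hBc c hc j hj, hty, h1]
  have hT' : T (fun j => (B' j).count 0) (fun j => (B' j).count 1) :=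
    hT _ _ _ _ (fun j hj => hsame 0 (Or.inl rfl) j hj) (fun j hj => hsame 1 (Or.inr rfl) j hj) hTB
  -- the last letter
  suffices hlast : (F01 (M ++ (w2 k1 a b (flp e i)).flatMap g ++ Q)).getLast? = some 1 from
    ⟨B', hW', hB', hT', hlast⟩
  obtain ⟨P, hP⟩ : ∃ P, P = M ++ (pre (fun j => bl (a j) (b j) (e j)) i).flatMap g := ⟨_, rfl⟩
  obtain ⟨S, hS⟩ : ∃ S, S = (suf (fun j => bl (a j) (b j) (e j)) i (k1 - i)).flatMap g ++ Q :=
    ⟨_, rfl⟩
  have hWs : M ++ (w2 k1 a b e).flatMap g ++ Q = P ++ (bl (a i) (b i) (e i)).flatMap g ++ S := by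
    rw [hP, hS]
    unfold w2
    rw [asm_split hi, List.flatMap_append, List.flatMap_append]
    simp only [List.append_assoc]
  have hWs' : M ++ (w2 k1 a b (flp e i)).flatMap g ++ Q =
      P ++ (bl (a i) (b i) (!(e i))).flatMap g ++ S := by
    rw [hP, hS]
    unfold w2
    rw [asm_split hi, List.flatMap_append, List.flatMap_append, flp_self,
      pre_congr (B' := fun j => bl (a j) (b j) (e j)) (fun j hj => by
        show bl (a j) (b j) (flp e i j) = _
        rw [flp_ne (by omega)]),
      suf_congr (B' := fun j => bl (a j) (b j) (e j)) (fun j hj _ => by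
        show bl (a j) (b j) (flp e i j) = _
        rw [flp_ne (by omega)])]
    simp only [List.append_assoc]
  have hX : ∀ e' : Bool, ∀ c ∈ (bl (a i) (b i) e').flatMap g, c = 0 ∨ c = 1 :=
    fun e' => sn_flatMap_zero g0 g1 (fun c hc => mem_bl hc)
  have hF : ∀ e' : Bool, F01 (P ++ (bl (a i) (b i) e').flatMap g ++ S) =
      F01 P ++ (bl (a i) (b i) e').flatMap g ++ F01 S := by
    intro e'
    rw [F01_append, F01_append, F01_self (hX e')]
  rw [hWs, hF] at hl
  rw [hWs', hF]
  by_cases hFS : F01 S = []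
  swap
  · rw [List.getLast?_append_of_ne_nil _ hFS] at hl ⊢
    exact hl
  rw [hFS, List.append_nil] at hl ⊢
  by_cases hdeg : a i = 0 ∨ b i = 0 ∨ g 0 = [] ∨ g 1 = []
  · -- the same words
    have h1 : (bl (a i) (b i) (!(e i))).flatMap g = (bl (a i) (b i) (e i)).flatMap g := by
      have hr : ∀ (c : ℕ), g c = [] → ∀ n, (List.replicate n c).flatMap g = [] := by
        intro c hc n
        induction n with
        | zero => rfl
        | succ n ih => rw [List.replicate_succ, List.flatMap_cons, hc, ih]; rfl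
      unfold bl
      rcases hdeg with h2 | h2 | h2 | h2
      · rw [h2]
        cases e i <;> simp
      · rw [h2]
        cases e i <;> simp
      · cases e i <;> simp [List.flatMap_append, hr _ h2]
      · cases e i <;> simp [List.flatMap_append, hr _ h2]
    rw [h1]
    exact hl
  · simp only [not_or] at hdeg
    obtain ⟨hai, hbi, hg0, hg1⟩ := hdeg
    have hai : 1 ≤ a i := Nat.pos_of_ne_zero hai
    have hbi : 1 ≤ b i := Nat.pos_of_ne_zero hbi
    have hk1 : f i ≤ k := hf1.le i hi
    -- the last block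
    have hsnP : sn P = f i := by
      rw [hP, sn_append, sn_pre g0 g1 (fun j => hBe e j), hfj]
    have hbig : ∀ c, (c = 0 ∨ c = 1) → ∀ j ≤ k, f i < j → (B j).count c = 0 := by
      intro c hc j hj hij
      rw [hBc c hc j hj, hWs, lv_append, lv_append, lv_gt c j P 0 (by omega),
        lv_gt c j ((bl (a i) (b i) (e i)).flatMap g) _ (by rw [sn_zero (hX _)]; omega),
        lv_not_mem c j S _ (fun hcS => ?_)]
      have h2 : c ∈ F01 S := by
        unfold F01
        rw [List.mem_filter, decide_eq_true_iff]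
        exact ⟨hcS, hc⟩
      rw [hFS] at h2
      exact List.not_mem_nil h2
    have hfl : ∀ c, (c = 0 ∨ c = 1) → 1 ≤ (B (f i)).count c → f i = l := by
      intro c hc h1
      have h2 : (sp k (fun j => (B j).count c)).max = (l : WithBot ℕ) := by
        rcases hc with rfl | rfl
        · exact (hL _ _ hTB).2.2.1
        · exact (hL _ _ hTB).2.2.2
      have h3 : l ∈ sp k (fun j => (B j).count c) := Finset.mem_of_max h2
      unfold sp at h3
      rw [Finset.mem_filter, Finset.mem_range] at h3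
      have h4 : l ≤ f i := by
        by_contra h5
        exact h3.2 (hbig c hc l (by omega) (by omega))
      have h6 : f i ∈ sp k (fun j => (B j).count c) := by
        unfold sp
        rw [Finset.mem_filter, Finset.mem_range]
        exact ⟨by omega, Nat.ne_of_gt h1⟩
      have h7 : f i ≤ l := Finset.le_max_of_eq h6 h2
      omega
    have hpa : 1 ≤ psh k1 f a (f i) := by
      have h1 : (if f i = f i then a i else 0) ≤ psh k1 f a (f i) := by
        unfold psh
        exact Finset.single_le_sum (f := fun i' => if f i' = f i then a i' else 0)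
          (fun _ _ => Nat.zero_le _) (Finset.mem_range.2 (by omega))
      rw [if_pos rfl] at h1
      omega
    have hpb : 1 ≤ psh k1 f b (f i) := by
      have h1 : (if f i = f i then b i else 0) ≤ psh k1 f b (f i) := by
        unfold psh
        exact Finset.single_le_sum (f := fun i' => if f i' = f i then b i' else 0)
          (fun _ _ => Nat.zero_le _) (Finset.mem_range.2 (by omega))
      rw [if_pos rfl] at h1
      omega
    have hlastg : ∀ x, (∀ c ∈ g x, c = 0 ∨ c = 1) → g x ≠ [] →
        (g x).getLast? = some 1 ∨ 0 ∈ g x := by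
      intro x hx hne
      have h1 : (g x).getLast? = some ((g x).getLast hne) := List.getLast?_eq_getLast_of_ne_nil hne
      have h2 := List.getLast_mem hne
      rcases hx _ h2 with h3 | h3
      · right
        rw [← h3]
        exact h2
      · left
        rw [h1, h3]
    cases hei : e i with
    | false =>
      rw [hei] at hl
      have h1 : (F01 P ++ (bl (a i) (b i) false).flatMap g).getLast? = (g 1).getLast? := by
        unfold bl
        simp only [Bool.false_eq_true, ↓reduceIte]
        rw [List.flatMap_append, ← List.append_assoc]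
        exact getLast_rep hbi hg1 _
      have h2 : (F01 P ++ (bl (a i) (b i) (!false)).flatMap g).getLast? = (g 0).getLast? := by
        unfold bl
        simp only [Bool.not_false, ↓reduceIte]
        rw [List.flatMap_append, ← List.append_assoc]
        exact getLast_rep hai hg0 _
      rw [h1] at hl
      rw [h2]
      rcases hlastg 0 g0 hg0 with h3 | h3
      · exact h3
      · exfalso
        have h4 : 1 ∈ g 1 := List.mem_of_getLast? hl
        have h5 := hlow0 0 (Or.inl rfl) h3
        have h6 := hlow1 1 (Or.inr rfl) h4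
        have h7 : f i = l := hfl 1 (Or.inr rfl) (hpb.trans (h6 _ hk1))
        exact (hno f _ _ hf1 h7 hTB).1 ⟨h5, h6⟩
    | true =>
      rw [hei] at hl
      have h1 : (F01 P ++ (bl (a i) (b i) true).flatMap g).getLast? = (g 0).getLast? := by
        unfold bl
        simp only [↓reduceIte]
        rw [List.flatMap_append, ← List.append_assoc]
        exact getLast_rep hai hg0 _
      have h2 : (F01 P ++ (bl (a i) (b i) (!true)).flatMap g).getLast? = (g 1).getLast? := by
        unfold bl
        simp only [Bool.not_true, Bool.false_eq_true, ↓reduceIte]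
        rw [List.flatMap_append, ← List.append_assoc]
        exact getLast_rep hbi hg1 _
      rw [h1] at hl
      rw [h2]
      rcases hlastg 1 g1 hg1 with h3 | h3
      · exact h3
      · exfalso
        have h4 : 1 ∈ g 0 := List.mem_of_getLast? hl
        have h5 := hlow1 0 (Or.inl rfl) h3
        have h6 := hlow0 1 (Or.inr rfl) h4
        have h7 : f i = l := hfl 1 (Or.inr rfl) (hpa.trans (h6 _ hk1))
        exact (hno f _ _ hf1 h7 hTB).2 ⟨h5, h6⟩

theorem flp_flp (e : ℕ → Bool) (i : ℕ) : flp (flp e i) i = e := by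
  funext j
  by_cases h : j = i
  · subst h
    rw [flp_self, flp_self, Bool.not_not]
  · rw [flp_ne h, flp_ne h]

/-- **SPG** -/
theorem spg : SpgStmt := by
  intro k l T hT hL k1 a b i ha hb hi hno e φ m q
  obtain ⟨g, hg⟩ : ∃ g : ℕ → List ℕ, g = fun c => (φ (FreeMonoid.of c)).toList := ⟨_, rfl⟩
  have hW : ∀ e, (m * φ (FreeMonoid.ofList (w2 k1 a b e)) * q).toList =
      m.toList ++ (w2 k1 a b e).flatMap g ++ q.toList := by
    intro e
    rw [FreeMonoid.toList_mul, FreeMonoid.toList_mul, toList_hom, hg, FreeMonoid.toList_ofList]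
  have hQ : ∀ e, QT k T (m * φ (FreeMonoid.ofList (w2 k1 a b e)) * q) ↔
      QL k T (m.toList ++ (w2 k1 a b e).flatMap g ++ q.toList) := by
    intro e
    unfold QT QL F01
    rw [hW]
  have h1 : ∀ e, QT k T (m * φ (FreeMonoid.ofList (w2 k1 a b e)) * q) →
      QT k T (m * φ (FreeMonoid.ofList (w2 k1 a b (flp e i))) * q) := by
    intro e h
    rw [hQ] at h ⊢
    exact spg_list hT hL ha hb hi hno e g _ _ h
  refine ⟨h1 e, fun h => ?_⟩
  have h2 := h1 (flp e i) h
  rw [flp_flp] at h2
  exact h2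

end Pool.Agent.MWC.H98
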